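import Mathlib
import Pool.Agent.H232R3.CMOLog

set_option autoImplicit false

namespace Pool.Agent.Results.MP_768c9c_nt.HalfLog

/-- Let `f` be completely multiplicative with `‖f p‖ ≤ C / p` at all primes, with
`Re f p ≥ -1 / p` up to an error `e p` with `∑ √p * e p < ∞`, and with
`-Re (f p ^ 2) ≤ (K + 1) / p ^ 2` up to an error `e' p` with `∑ p * e' p < ∞`.
Then for every `A > (K + 2) / (K + 4)` the partial sums of `f` are not
`O (N ^ (-1/2) (log N) ^ (-A))`. -/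
theorem result :
    ∀ f : ℕ → ℂ,
      f 1 = 1 →
      (∀ m n : ℕ, 0 < m → 0 < n → f (m * n) = f m * f n) →
      ∀ (C : ℝ) (K : ℕ),
        (∀ p : ℕ, p.Prime → ‖f p‖ ≤ C / p) →
        (Summable fun p : Nat.Primes => Real.sqrt p * max (-(1 / (p : ℝ)) - (f p).re) 0) →
        (Summable fun p : Nat.Primes =>
          (p : ℝ) * max (-(f p ^ 2).re - (K + 1) / (p : ℝ) ^ 2) 0) →
        ∀ A : ℝ, ((K : ℝ) + 2) / (K + 4) < A →
          ∀ (B : ℝ) (M : ℕ), ∃ N : ℕ, M ≤ N ∧ 1 < N ∧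
            B * ((N : ℝ) ^ (-(1/2) : ℝ) * Real.log N ^ (-A)) ≤ ‖∑ n ∈ Finset.Icc 1 N, f n‖ :=
  fun f f1 hmul C K hC ha hb A hA B M =>
    Pool.H232R3.cmo_log f f1 hmul C K hC ha hb A hA B M

end Pool.Agent.Results.MP_768c9c_nt.HalfLog
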