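import Mathlib
import Pool.Agent.H232R3.CMOFinal

set_option autoImplicit false

open Filter Topology

namespace Pool.Agent.Results.MP_768c9c_nt.OmegaClass

/-- The conclusion of the Kahane-Saias question, `∑ n ≤ N, f n = Ω (N ^ (-1/2))`, holds for every
CMO function `f` for which the sum, over the primes `p` at which `f p` is not a nonnegative real
number, of `√p * max (‖f p‖ - 1 / p) 0` is finite; in particular for every CMO function with
`‖f p‖ ≤ 1 / p` at all primes. -/
theorem result :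
    ∀ f : ℕ → ℂ,
      f 1 = 1 →
      (∀ m n : ℕ, 0 < m → 0 < n → f (m * n) = f m * f n) →
      Tendsto (fun N : ℕ => ∑ n ∈ Finset.range N, f (n + 1)) atTop (𝓝 0) →
      (Summable fun p : ℕ => if p.Prime ∧ ¬ ((f p).im = 0 ∧ 0 ≤ (f p).re) then
        Real.sqrt p * max (‖f p‖ - 1 / p) 0 else 0) →
      ∃ c : ℝ, 0 < c ∧ ∀ M : ℕ, ∃ N : ℕ, M ≤ N ∧ 0 < N ∧
        c / Real.sqrt (N : ℝ) ≤ ‖∑ n ∈ Finset.Icc 1 N, f n‖ :=
  fun f h1 hf _ hs => Pool.H232R3.class_main f h1 hf hs

end Pool.Agent.Results.MP_768c9c_nt.OmegaClass
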