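import Mathlib
import Pool.Agent.H232R3.CMOFinal

set_option autoImplicit false

open Filter Topology

namespace Pool.Agent.Results.MP_768c9c_nt.PowerDecay

/-- For every CMO function `f` there is `δ > 0` such that `N ^ (1 - δ) * ‖∑ n ≤ N, f n‖`
is unbounded: the partial sums of a CMO function are never `O (N ^ (-1 + δ))` for all `δ > 0`. -/
theorem result :
    ∀ f : ℕ → ℂ,
      f 1 = 1 →
      (∀ m n : ℕ, 0 < m → 0 < n → f (m * n) = f m * f n) →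
      Tendsto (fun N : ℕ => ∑ n ∈ Finset.range N, f (n + 1)) atTop (𝓝 0) →
      ∃ δ : ℝ, 0 < δ ∧ ∀ C : ℝ, ∀ M : ℕ, ∃ N : ℕ, M ≤ N ∧ 0 < N ∧
        C * (N : ℝ) ^ (-1 + δ) ≤ ‖∑ n ∈ Finset.Icc 1 N, f n‖ :=
  fun f h1 hf _ => Pool.H232R3.decay_main f h1 hf

end Pool.Agent.Results.MP_768c9c_nt.PowerDecay
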